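import Pool.Agent.helper26.T5.SpecH

set_option autoImplicit false

namespace Pool.Agent.helper26.T5

open Finset NumberField Pool.Agent.helper3.FT Pool.Agent.helper47.RA Pool.Agent.T5
open Pool.Agent.helper28.LT (rad)

/-- HCL: sorting by classes -/
theorem hcl : HCL := by
  intro K _ _ Q A B hA hB S hS hT
  classical
  set φ : Ideal (𝓞 K) → ClassGroup (𝓞 K) := fun a =>
    if h : a ≠ ⊥ then ClassGroup.mk0 ⟨a, mem_nonZeroDivisors_of_ne_zero h⟩ else 1 with hφ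
  have hφe : ∀ a : Ideal (𝓞 K), ∀ h : a ≠ ⊥, φ a = ClassGroup.mk0 ⟨a, mem_nonZeroDivisors_of_ne_zero h⟩ := by
    intro a h
    simp only [hφ]
    rw [dif_pos h]
  have hφm : ∀ a b : Ideal (𝓞 K), a ≠ ⊥ → b ≠ ⊥ → φ (a * b) = φ a * φ b := by
    intro a b ha hb
    have hab : a * b ≠ ⊥ := mul_ne_zero ha hb
    rw [hφe a ha, hφe b hb, hφe (a * b) hab, ← map_mul]
    rfl
  have hφ1 : ∀ a : Ideal (𝓞 K), a ≠ ⊥ → (φ a = 1 ↔ a.IsPrincipal) := by
    intro a ha
    rw [hφe a ha, ClassGroup.mk0_eq_one_iff]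
  have hφp : ∀ a : Ideal (𝓞 K), a ≠ ⊥ → ∀ n : ℕ, φ (a ^ n) = φ a ^ n := by
    intro a ha n
    induction n with
    | zero =>
      rw [pow_zero, pow_zero]
      have h1 : (1 : Ideal (𝓞 K)) ≠ ⊥ := one_ne_zero
      rw [hφ1 1 h1]
      exact ⟨⟨1, by rw [Ideal.one_eq_top, Ideal.submodule_span_eq, Ideal.span_singleton_one]⟩⟩
    | succ n ih =>
      rw [pow_succ, hφm _ _ (pow_ne_zero n ha) ha, ih, pow_succ]
  have hbar0 : ∀ a : Ideal (𝓞 K), a ≠ ⊥ → Q.bar a ≠ ⊥ := by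
    intro a ha h0
    have h1 := Q.mul_bar a
    rw [h0, Ideal.mul_bot] at h1
    have h2 : ((Ideal.absNorm a : ℕ) : 𝓞 K) = 0 := by
      have := h1.symm
      rwa [Ideal.span_singleton_eq_bot] at this
    have h3 : Ideal.absNorm a = 0 := by exact_mod_cast h2
    exact ha (Ideal.absNorm_eq_zero_iff.1 h3)
  have hbar : ∀ a : Ideal (𝓞 K), a ≠ ⊥ → φ a * φ (Q.bar a) = 1 := by
    intro a ha
    rw [← hφm a _ ha (hbar0 a ha), hφ1 _ (mul_ne_zero ha (hbar0 a ha)), Q.mul_bar a]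
    exact ⟨⟨_, rfl⟩⟩
  set C : Finset (ClassGroup (𝓞 K)) := S.image φ with hC
  have hC5 : ∀ c ∈ C, c ^ 5 * φ A = 1 := by
    intro c hc
    rw [hC, Finset.mem_image] at hc
    obtain ⟨a, ha, rfl⟩ := hc
    obtain ⟨h1, h2⟩ := hS a ha
    rw [← hφp a h1 5, ← hφm _ _ (pow_ne_zero 5 h1) hA, hφ1 _ (mul_ne_zero (pow_ne_zero 5 h1) hA)]
    exact h2
  have hfib : ∀ c ∈ C, ((S.filter (fun a => φ a = c)).card : ℝ) ≤ B := by
    intro c _
    refine hT _ (Finset.filter_subset _ _) ?_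
    intro a ha a' ha'
    rw [Finset.mem_filter] at ha ha'
    have h1 := (hS a ha.1).1
    have h2 := (hS a' ha'.1).1
    rw [← hφ1 _ (mul_ne_zero h1 (hbar0 a' h2)), hφm _ _ h1 (hbar0 a' h2), ha.2, ← ha'.2]
    exact hbar a' h2
  have hcard : (S.card : ℝ) ≤ (C.card : ℝ) * B := by
    have h1 : S.card = ∑ c ∈ C, (S.filter (fun a => φ a = c)).card :=
      Finset.card_eq_sum_card_image φ S
    rw [h1, Nat.cast_sum]
    calc ∑ c ∈ C, ((S.filter (fun a => φ a = c)).card : ℝ) ≤ ∑ c ∈ C, B := Finset.sum_le_sum hfib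
      _ = (C.card : ℝ) * B := by rw [Finset.sum_const, nsmul_eq_mul]
  have hC2 : C.card ≤ Nat.card {x : ClassGroup (𝓞 K) // x ^ 5 = 1} := by
    rcases C.eq_empty_or_nonempty with h0 | ⟨c0, hc0⟩
    · rw [h0]
      simp
    · have hfin : Finite {x : ClassGroup (𝓞 K) // x ^ 5 = 1} := inferInstance
      haveI : Fintype {x : ClassGroup (𝓞 K) // x ^ 5 = 1} := Fintype.ofFinite _
      rw [Nat.card_eq_fintype_card]
      have h1 : ∀ c ∈ C, (c * c0⁻¹) ^ 5 = 1 := by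
        intro c hc
        have h2 := hC5 c hc
        have h3 := hC5 c0 hc0
        rw [mul_pow, inv_pow, mul_inv_eq_one]
        exact mul_right_cancel (h2.trans h3.symm)
      refine Finset.card_le_card_of_injOn (s := C) (t := Finset.univ)
        (fun c => if h : (c * c0⁻¹) ^ 5 = 1 then (⟨c * c0⁻¹, h⟩ : {x : ClassGroup (𝓞 K) // x ^ 5 = 1}) else ⟨1, one_pow 5⟩)
        (fun c _ => Finset.mem_coe.2 (Finset.mem_univ _)) ?_
      intro c hc c' hc' h
      simp only at h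
      rw [dif_pos (h1 c hc), dif_pos (h1 c' hc')] at h
      have h4 := congrArg Subtype.val h
      exact mul_right_cancel h4
  refine hcard.trans ?_
  exact mul_le_mul_of_nonneg_right (by exact_mod_cast hC2) hB

end Pool.Agent.helper26.T5
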