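import Pool.Agent.helper8.T5.SpecU

set_option autoImplicit false

namespace Pool.Agent.T5

open Finset NumberField Pool.Agent.helper3.FT Pool.Agent.helper47.RA

/-- UFU: interface -/
theorem UFU (hUU : UU_stmt) : UFU_stmt := by
  intro ε hε
  obtain ⟨C, hC, h⟩ := hUU ε hε
  refine ⟨C, hC, fun N Y hN hY => ?_⟩
  classical
  set s : Finset ℤ := (DN N).filter (fun D => Nonempty (Fld D)) with hs
  have hΦ : ∀ D : s, Nonempty (Fld D.1) := fun D => (Finset.mem_filter.1 D.2).2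
  have hb : ∀ D ∈ s, N / 2 < -(D : ℝ) ∧ -(D : ℝ) ≤ N := by
    intro D hD
    have h1 := (Finset.mem_filter.1 hD).1
    unfold DN at h1
    rw [Finset.mem_filter, Finset.mem_Icc] at h1
    refine ⟨h1.2.2, ?_⟩
    have h2 : -⌊N⌋ ≤ D := h1.1.1
    have h3 : (-(⌊N⌋ : ℝ)) ≤ (D : ℝ) := by exact_mod_cast h2
    have h4 := Int.floor_le N
    linarith
  have h1 := h N Y hN hY s (fun D => (hΦ D).some) hb
  have h2 : ∑ D ∈ DN N, (cA D Y : ℝ) = ∑ D : s, ((IA (hΦ D).some.K Y).ncard : ℝ) := by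
    have e1 : ∑ D ∈ s, (cA D Y : ℝ) = ∑ D ∈ DN N, (cA D Y : ℝ) := by
      rw [hs]
      refine Finset.sum_filter_of_ne ?_
      intro D _ hne
      by_contra hno
      apply hne
      unfold cA
      rw [dif_neg hno]
      simp
    rw [← e1, ← Finset.sum_coe_sort s (fun D => (cA D Y : ℝ))]
    refine Finset.sum_congr rfl fun D _ => ?_
    unfold cA
    rw [dif_pos (hΦ D)]
  rw [h2]
  refine h1.trans ?_
  have hN0 : (0 : ℝ) ≤ N := by linarith
  have h3 : N ^ ε ≤ (N * Y) ^ ε := Real.rpow_le_rpow hN0 (by nlinarith) hε.le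
  have h4 : 0 ≤ Y * √N := mul_nonneg (by linarith) (Real.sqrt_nonneg _)
  have h5 : C * N ^ ε ≤ C * (N * Y) ^ ε := mul_le_mul_of_nonneg_left h3 (by linarith)
  exact mul_le_mul_of_nonneg_right h5 h4

end Pool.Agent.T5
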