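import Pool.Agent.helper8.T5.SpecU

set_option autoImplicit false

namespace Pool.Agent.T5

open Finset NumberField Pool.Agent.helper3.FT Pool.Agent.helper47.RA

/-- the set of ideals counted in `UMN_stmt` -/
def UMN_A {K : Type} [Field K] [NumberField K] (Q : QF K) (Y B : ℝ) : Set (Ideal (𝓞 K)) :=
  {a ∈ IA K Y | ∃ F : Full Q, F.a = a ∧ 0 < F.Λ ∧ (F.Λ : ℝ) ≤ B ∧ 0 < F.Z ∧ Q.Y F.β ≠ 0 ∧ Q.Y F.γ ≠ 0}

theorem UMN_fin {K : Type} [Field K] [NumberField K] (Q : QF K) (Y B : ℝ) : (UMN_A Q Y B).Finite := by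
  refine (Ideal.finite_setOfPred_absNorm_le (S := 𝓞 K) ⌊Y⌋₊).subset ?_
  intro a ha
  have h1 : (Ideal.absNorm a : ℝ) ≤ Y := ha.1.2.2.2.2.2
  exact Nat.le_floor h1

/-- the choice of a structure for an ideal -/
theorem UMN_choice {K : Type} [Field K] [NumberField K] (Q : QF K) (Y B : ℝ) :
    ∃ f : Ideal (𝓞 K) → Option (Full Q), ∀ a ∈ UMN_A Q Y B, ∃ F : Full Q, f a = some F ∧ F.a = a ∧ 0 < F.Λ ∧ (F.Λ : ℝ) ≤ B ∧
      0 < F.Z ∧ Q.Y F.β ≠ 0 ∧ Q.Y F.γ ≠ 0 := by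
  classical
  refine ⟨fun a => if h : ∃ F : Full Q, F.a = a ∧ 0 < F.Λ ∧ (F.Λ : ℝ) ≤ B ∧ 0 < F.Z ∧ Q.Y F.β ≠ 0 ∧ Q.Y F.γ ≠ 0 then some h.choose else none, ?_⟩
  intro a ha
  have h := ha.2
  exact ⟨h.choose, dif_pos h, h.choose_spec⟩

/-- the tuples of one field -/
theorem UMN_one (hUTP : UTP_stmt) (K : Type) [Field K] [NumberField K] (Q : QF K) (hD : Q.D < 0) (Y B : ℝ) :
    ∃ g : Ideal (𝓞 K) → Tpl × (Bool × Bool),
      (∀ a ∈ UMN_A Q Y B, IsT (g a).1 ∧ Y / 2 < (g a).1.2.2.2 ∧ ((g a).1.2.2.2 : ℝ) ≤ Y ∧ 0 < lam (g a).1 ∧ (lam (g a).1 : ℝ) ≤ B ∧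
        ∃ d : ℤ, d ≠ 0 ∧ dis (g a).1 = Q.D * d ^ 2) ∧
      ∀ a ∈ UMN_A Q Y B, ∀ a' ∈ UMN_A Q Y B, g a = g a' → a = a' := by
  classical
  obtain ⟨T, hT1, hT2⟩ := hUTP K Q hD
  obtain ⟨f, hf⟩ := UMN_choice Q Y B
  refine ⟨fun a => match f a with
    | some F => T F
    | none => (((0, 0), (0, 0, 0)), (false, false)), ?_, ?_⟩
  · intro a ha
    obtain ⟨F, h0, h1, h2, h3, h4, h5, h6⟩ := hf a ha
    simp only [h0]
    obtain ⟨t1, t2, t3, t4⟩ := hT1 F h5 h6 h4 h2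
    have hn : (Ideal.absNorm a : ℤ) = F.Z := by
      rw [← h1, F.na, abs_of_pos h4]
    have hn' : ((Ideal.absNorm a : ℕ) : ℝ) = (F.Z : ℝ) := by exact_mod_cast congrArg (fun z : ℤ => (z : ℝ)) hn
    refine ⟨t1, ?_, ?_, ?_, ?_, t4⟩
    · rw [t2, ← hn']
      exact ha.1.2.2.2.2.1
    · rw [t2, ← hn']
      exact ha.1.2.2.2.2.2
    · rw [t3]
      exact h2
    · rw [t3]
      exact h3
  · intro a ha a' ha' h
    obtain ⟨F, h0, h1, h2, h3, h4, h5, h6⟩ := hf a ha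
    obtain ⟨F', h0', h1', h2', h3', h4', h5', h6'⟩ := hf a' ha'
    simp only [h0, h0'] at h
    rw [← h1, ← h1']
    exact hT2 F F' h5 h6 h5' h6' h

/-- UMN: ideals with both coordinates nonzero -/
theorem UMN (hUTP : UTP_stmt) (hBCU : BCU_stmt) : UMN_stmt := by
  intro δ hδ hδ1
  obtain ⟨c, hc, hb⟩ := hBCU δ hδ hδ1
  refine ⟨c, hc, fun ε hε => ?_⟩
  obtain ⟨C, hC, hb⟩ := hb ε hε
  refine ⟨4 * C, by linarith, ?_⟩
  intro N Y B hN hY1 hY2 hB1 hB2 s Φ hs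
  classical
  have hneg : ∀ D : s, (Φ D).Q.D < 0 := by
    intro D
    rw [(Φ D).hD]
    have h1 := (hs D.1 D.2).1
    have h2 : (D.1 : ℝ) < 0 := by linarith
    exact_mod_cast h2
  choose g hg1 hg2 using fun D : s => UMN_one hUTP (Φ D).K (Φ D).Q (hneg D) Y B
  have hfin : ∀ D : s, (UMN_A (Φ D).Q Y B).Finite := fun D => UMN_fin _ Y B
  set U : Finset (Σ D : s, Ideal (𝓞 (Φ D).K)) := (Finset.univ : Finset s).sigma (fun D => (hfin D).toFinset) with hU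
  have hcard : (U.card : ℝ) = ∑ D : s, ((UMN_A (Φ D).Q Y B).ncard : ℝ) := by
    rw [hU, Finset.card_sigma, Nat.cast_sum]
    refine Finset.sum_congr rfl fun D _ => ?_
    rw [Set.ncard_eq_toFinset_card _ (hfin D)]
  set G : (Σ D : s, Ideal (𝓞 (Φ D).K)) → Tpl × (Bool × Bool) := fun x => g x.1 x.2 with hG
  have hmem : ∀ x ∈ U, x.2 ∈ UMN_A (Φ x.1).Q Y B := by
    intro x hx
    rw [hU, Finset.mem_sigma] at hx
    exact (hfin x.1).mem_toFinset.1 hx.2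
  have hinj : Set.InjOn G U := by
    intro x hx y hy hxy
    have hx' := hmem x hx
    have hy' := hmem y hy
    obtain ⟨D, a⟩ := x
    obtain ⟨D', a'⟩ := y
    simp only [hG] at hxy hx' hy'
    obtain ⟨d, hd, e1⟩ := (hg1 D a hx').2.2.2.2.2
    obtain ⟨d', hd', e2⟩ := (hg1 D' a' hy').2.2.2.2.2
    have h3 : (Φ D).Q.D * d ^ 2 = (Φ D').Q.D * d' ^ 2 := by
      rw [← e1, ← e2, hxy]
    have h4 := fund_unique _ _ d d' (Φ D).Q.hD (Φ D').Q.hD hd hd' h3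
    rw [(Φ D).hD, (Φ D').hD] at h4
    have h5 : D = D' := Subtype.ext h4
    subst h5
    have h6 := hg2 D a hx' a' hy' hxy
    rw [h6]
  set F : Finset Tpl := U.image (fun x => (G x).1) with hF
  have hF1 : ∀ t ∈ F, IsT t ∧ Y / 2 < t.2.2.2 ∧ (t.2.2.2 : ℝ) ≤ Y ∧ 0 < lam t ∧ (lam t : ℝ) ≤ B ∧ N / 2 < -(dis t : ℝ) := by
    intro t ht
    rw [hF, Finset.mem_image] at ht
    obtain ⟨x, hx, rfl⟩ := ht
    obtain ⟨h1, h2, h3, h4, h5, d, hd, h6⟩ := hg1 x.1 x.2 (hmem x hx)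
    refine ⟨h1, h2, h3, h4, h5, ?_⟩
    have h7 := (hs x.1.1 x.1.2).1
    have h8 : (dis (G x).1 : ℝ) = (x.1.1 : ℝ) * (d : ℝ) ^ 2 := by
      have e : dis (G x).1 = x.1.1 * d ^ 2 := by
        rw [← (Φ x.1).hD]
        exact h6
      rw [e]
      push_cast
      rfl
    rw [h8]
    have h9 : (1 : ℝ) ≤ (d : ℝ) ^ 2 := by
      have : (1 : ℤ) ≤ d ^ 2 := by
        have := sq_pos_of_ne_zero hd
        omega
      exact_mod_cast this
    nlinarith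
  have h1 : (F.card : ℝ) ≤ C * N ^ ε * (Y * B + Y * N ^ (1 / 2 - c)) :=
    hb N Y B hN hY1 hY2 hB1 hB2 F hF1
  have h2 : U.card ≤ F.card * 4 := by
    have e1 : U.card = (U.image G).card := (Finset.card_image_of_injOn hinj).symm
    have e2 : U.image G ⊆ F ×ˢ (Finset.univ : Finset (Bool × Bool)) := by
      intro y hy
      rw [Finset.mem_image] at hy
      obtain ⟨x, hx, rfl⟩ := hy
      rw [Finset.mem_product]
      exact ⟨Finset.mem_image_of_mem _ hx, Finset.mem_univ _⟩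
    rw [e1]
    refine (Finset.card_le_card e2).trans ?_
    rw [Finset.card_product]
    exact Nat.mul_le_mul_left _ (by simp)
  have h3 : (U.card : ℝ) ≤ (F.card : ℝ) * 4 := by exact_mod_cast h2
  have h4 : ∑ D : s, ((UMN_A (Φ D).Q Y B).ncard : ℝ) ≤ 4 * C * N ^ ε * (Y * B + Y * N ^ (1 / 2 - c)) := by
    rw [← hcard]
    linarith
  exact h4

end Pool.Agent.T5
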